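import Pool.Agent.Helper58.DG.Goals

/-!
# Project DG (MP_06d934_gt), packet C_SGN: counting zeros with signs near nondegenerate limit zeros
-/

set_option autoImplicit false

namespace Pool.Agent.Helper30.DG

open Filter Topology Set
open _root_.Pool.Agent.Helper58.DG

theorem fderiv_slice {m : ℕ} (F : ℝ → (Fin m → ℝ) → Fin m → ℝ)
    (hF : ContDiff ℝ 1 (fun z : ℝ × (Fin m → ℝ) ↦ F z.1 z.2)) (t : ℝ) (u : Fin m → ℝ) :
    fderiv ℝ (F t) u = (fderiv ℝ (fun z : ℝ × (Fin m → ℝ) ↦ F z.1 z.2) (t, u)).comp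
      (ContinuousLinearMap.inr ℝ ℝ (Fin m → ℝ)) := by
  refine HasFDerivAt.fderiv ?_
  have h1 : HasFDerivAt (fun w : Fin m → ℝ ↦ (t, w)) (ContinuousLinearMap.inr ℝ ℝ (Fin m → ℝ)) u :=
    hasFDerivAt_prodMk_right t u
  exact ((hF.differentiable one_ne_zero (t, u)).hasFDerivAt).comp u h1

theorem continuous_jac {m : ℕ} (F : ℝ → (Fin m → ℝ) → Fin m → ℝ)
    (hF : ContDiff ℝ 1 (fun z : ℝ × (Fin m → ℝ) ↦ F z.1 z.2)) :
    Continuous fun p : ℝ × (Fin m → ℝ) ↦ jac (F p.1) p.2 := by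
  unfold jac
  simp only [fderiv_slice F hF]
  refine ContinuousLinearMap.continuous_det.comp ?_
  exact (hF.continuous_fderiv one_ne_zero).clm_comp continuous_const

theorem nondeg {m : ℕ} (f : (Fin m → ℝ) → Fin m → ℝ) (hf : Differentiable ℝ f) (z : Fin m → ℝ)
    (hj : jac f z ≠ 0) (v : Fin m → ℝ) (hv : HasDerivAt (fun s : ℝ ↦ f (z + s • v)) 0 0) : v = 0 := by
  have h1 : HasDerivAt (fun s : ℝ ↦ z + s • v) v 0 := by
    have := ((hasDerivAt_id (0 : ℝ)).smul_const v).const_add z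
    simpa using this
  have h2 : HasFDerivAt f (fderiv ℝ f z) (z + (0 : ℝ) • v) := by
    rw [zero_smul, add_zero]
    exact (hf z).hasFDerivAt
  have h3 := h2.comp_hasDerivAt (0 : ℝ) h1
  have h4 : fderiv ℝ f z v = 0 := h3.unique hv
  unfold jac at hj
  have h5 : ((fderiv ℝ f z : (Fin m → ℝ) →L[ℝ] (Fin m → ℝ)) : (Fin m → ℝ) →ₗ[ℝ] (Fin m → ℝ)).ker = ⊥ := by
    by_contra hne
    exact hj (LinearMap.det_eq_zero_iff_ker_ne_bot.2 hne)
  rw [LinearMap.ker_eq_bot'] at h5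
  exact h5 v h4

theorem sg_eventually {α : Type*} {l : Filter α} {f : α → ℝ} {r : ℝ} (h : Tendsto f l (𝓝 r)) (hr : r ≠ 0) :
    ∀ᶠ t in l, f t ≠ 0 ∧ sg (f t) = sg r := by
  rcases lt_or_gt_of_ne hr with h0 | h0
  · filter_upwards [h.eventually_lt_const h0] with t ht
    refine ⟨ht.ne, ?_⟩
    unfold sg
    rw [sign_neg ht, sign_neg h0]
  · filter_upwards [h.eventually_const_lt h0] with t ht
    refine ⟨ht.ne', ?_⟩
    unfold sg
    rw [sign_pos ht, sign_pos h0]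

/-- **C_SGN** -/
theorem c_sgn : Pool.Agent.Helper58.DG.C_SGN := by
  classical
  intro m F K Z U S ε₀ hF hK hKZ hZ hJ hU hε₀ hS hS'
  have hloc : ∀ z : Fin m → ℝ, ∃ g : ℝ → Fin m → ℝ, z ∈ Z → (Tendsto g (𝓝 0) (𝓝 z) ∧
      (∀ᶠ t in 𝓝 (0 : ℝ), F t (g t) = 0) ∧
      ∀ᶠ p : ℝ × (Fin m → ℝ) in 𝓝 (0, z), F p.1 p.2 = 0 → p.2 = g p.1) := by
    intro z
    by_cases hz : z ∈ Z
    · have hd : Differentiable ℝ (F 0) := by
        have h1 : Differentiable ℝ (fun z : ℝ × (Fin m → ℝ) ↦ F z.1 z.2) :=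
          hF.differentiable one_ne_zero
        have h2 : Differentiable ℝ (fun w : Fin m → ℝ ↦ ((0 : ℝ), w)) :=
          (differentiable_const _).prodMk differentiable_id
        exact h1.comp h2
      obtain ⟨g, hg⟩ := Pool.Agent.Helper83.EIN.local_zero F hF z (hZ z hz)
        (nondeg (F 0) hd z (hJ z hz))
      exact ⟨g, fun _ ↦ hg⟩
    · exact ⟨fun _ ↦ z, fun h ↦ absurd h hz⟩
  choose g hg using hloc
  have h1 : ∀ᶠ t in 𝓝 (0 : ℝ), ∀ z ∈ Z, g z t ∈ U ∧ F t (g z t) = 0 := by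
    rw [eventually_all_finset]
    intro z hz
    filter_upwards [(hg z hz).1 (hU z hz), (hg z hz).2.1] with t ht ht'
    exact ⟨ht, ht'⟩
  have h2 : ∀ᶠ t in 𝓝 (0 : ℝ), ∀ z ∈ Z, ∀ z' ∈ Z, z ≠ z' → g z t ≠ g z' t := by
    rw [eventually_all_finset]
    intro z hz
    rw [eventually_all_finset]
    intro z' hz'
    by_cases h : z = z'
    · exact Eventually.of_forall fun t h' ↦ absurd h h'
    · obtain ⟨A, B, hA, hB, hzA, hzB, hAB⟩ := t2_separation h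
      filter_upwards [(hg z hz).1 (hA.mem_nhds hzA), (hg z' hz').1 (hB.mem_nhds hzB)]
        with t ht ht' _ he
      have ht1 : g z t ∈ A := ht
      have ht2 : g z' t ∈ B := ht'
      rw [← he] at ht2
      exact Set.disjoint_left.1 hAB ht1 ht2
  have h3 : ∀ᶠ t in 𝓝 (0 : ℝ), ∀ u ∈ K, F t u = 0 → ∃ z ∈ Z, u = g z t := by
    refine hK.eventually_forall_of_forall_eventually fun u hu ↦ ?_
    by_cases h0 : F 0 u = 0
    · have hz := hKZ u hu h0
      filter_upwards [(hg u hz).2.2] with p hp hp0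
      exact ⟨u, hz, hp hp0⟩
    · have hcont : Continuous fun p : ℝ × (Fin m → ℝ) ↦ F p.1 p.2 := hF.continuous
      have : ∀ᶠ p : ℝ × (Fin m → ℝ) in 𝓝 (0, u), F p.1 p.2 ≠ 0 :=
        hcont.continuousAt.eventually_ne h0
      filter_upwards [this] with p hp hp0
      exact absurd hp0 hp
  have h4 : ∀ᶠ t in 𝓝 (0 : ℝ), ∀ z ∈ Z, jac (F t) (g z t) ≠ 0 ∧
      sg (jac (F t) (g z t)) = sg (jac (F 0) z) := by
    rw [eventually_all_finset]
    intro z hz
    have h5 : Tendsto (fun t : ℝ ↦ (t, g z t)) (𝓝 0) (𝓝 ((0 : ℝ), z)) :=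
      Filter.Tendsto.prodMk_nhds tendsto_id (hg z hz).1
    have h6 : Tendsto (fun t : ℝ ↦ jac (F t) (g z t)) (𝓝 0) (𝓝 (jac (F 0) z)) :=
      ((continuous_jac F hF).tendsto ((0 : ℝ), z)).comp h5
    exact sg_eventually h6 (hJ z hz)
  obtain ⟨ε, hε, hball⟩ := Metric.eventually_nhds_iff.1 (((h1.and h2).and h3).and h4)
  refine ⟨min ε ε₀, lt_min hε hε₀, fun t ht0 ht ↦ ?_⟩
  obtain ⟨⟨⟨a1, a2⟩, a3⟩, a4⟩ := hball (y := t) (by
    rw [Real.dist_eq, sub_zero, abs_of_pos ht0]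
    exact ht.trans_le (min_le_left _ _))
  have ht' := ht.trans_le (min_le_right ε ε₀)
  have hinj : Set.InjOn (fun z ↦ g z t) (Z : Set (Fin m → ℝ)) := by
    intro z hz z' hz' h
    by_contra hne
    exact a2 z hz z' hz' hne h
  refine ⟨Z.image fun z ↦ g z t, ?_, ?_, ?_⟩
  · intro u
    constructor
    · intro hu
      obtain ⟨z, hz, rfl⟩ := Finset.mem_image.1 hu
      exact hS' t ht0 ht' _ (a1 z hz).1 (a1 z hz).2
    · intro hu
      obtain ⟨b1, b2⟩ := hS t ht0 ht' u hu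
      obtain ⟨z, hz, rfl⟩ := a3 u b1 b2
      exact Finset.mem_image_of_mem _ hz
  · intro u hu
    obtain ⟨z, hz, rfl⟩ := Finset.mem_image.1 hu
    exact (a4 z hz).1
  · rw [Finset.sum_image hinj]
    exact Finset.sum_congr rfl fun z hz ↦ (a4 z hz).2

end Pool.Agent.Helper30.DG
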